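import Mathlib
import Pool.Agent.Zk21.ChI

/-!
# Lehmer's problem for decomposable polynomials

There is an absolute constant `C > 1` with the following property. Let `g` be an integer polynomial
of degree `k ≥ 2`, let `h = u / X ^ e` be a Laurent polynomial with integer coefficients
(`0 ≤ e < d = deg u`), and let `f = X ^ (e k) g(h(X))`. Suppose that `f` is irreducible, that
`M(f) > 1`, and that `f` is not a polynomial in `X ^ m`, `m = max (e, d - e)`. Then

  `M(f) ≥ C`, and `C ^ (k + T) ≤ M(f) ≤ e ^ T` if the leading coefficient of `f` is `± 1`,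

where `T` is the sum over the `k` zeros `b` of `g` of the mean of `log⁺ |h - b|` over the unit circle.

The constant does not depend on the degree and the coefficients of `h`: Lehmer's question has a positive
answer, with growth exponential in the degree of the outer polynomial, for all decomposable
polynomials outside `ℤ[X ^ m]`.  The bounds give the order of magnitude of `log M(f)`, which is the sum over
the zeros `b` of the mean of `log |h - b|`: the mean of `log⁺ |h - b|` is not lost in it. The exception cannot be avoided in a partial result of this kind: as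
`M(F(X ^ m)) = M(F)`, the bound for the polynomials in `X ^ m` (compositions of `F` and `X ^ m`, or,
for reciprocal `F`, of the trace polynomial of `F` and `X ^ m + X ^ (-m)`) is Lehmer's question
itself. The theorem contains reciprocal polynomials, for which Smyth's theorem gives nothing: all
reciprocal `f` whose trace polynomial is a composition `g ∘ H` of integer polynomials, where `H` is
not of the form `± D_m + c` with the Dickson polynomial `D_m(x + 1/x) = x ^ m + x ^ (-m)`.

Method.

1. If `h(1/X)` is not of the form `± h(X) + c`, then an inequality of Smyth-Schinzel type for the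
   polynomials `u - β X ^ e`, `g(β) = 0`, gives `M(f) ≥ ((1 + √5)/2) ^ (k/2)`
   (`Zk21.Dec.laurent_dec`). If `k` is bounded, then a second main theorem of Nevanlinna type for
   these polynomials gives the bound (`Zk21.Smt.main_smt`). The case `h(1/X) = - h(X) + c` is reduced
   to the symmetric case by passing to `(h - c/2) ^ 2` and `f f^*`.
2. Let `h(X) = H(X + 1/X)` and let `k` be large. Let `p` be a (fixed, large) prime number. If `a`,
   `a'` are zeros of `f` with `h(a) = h(a')`, then `h(a ^ p) - h(a' ^ p)` is divisible by `p`, as
   `h(x ^ p) ≡ h(x) ^ p` modulo `p`. If all these differences were zero, then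
   `h(x ^ p) = B(h(x))` for a polynomial `B` (interpolation; here `k > p` is used), which is possible
   only for `h = ± (x ^ m + x ^ (-m)) + c`. By conjugation the differences are non-zero for a fixed
   number of partners of each zero, and the norm gives that the mean of `log⁺ |h(a ^ p) - b|` over
   the zeros `a` of `f` is at least `(1/2) log (p / 2)` for all `b` (`Zk21.Un.pairs_complex`).
3. On the other hand this mean is at most `(1 + ε)` times the mean of `log⁺ |h - b|` over the unit
   circle, plus a small error. This is an energy inequality (`Zk21.Un.energy_pull`) for the kernel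
   `- log |1 - x ȳ| - log |1 - x y|` on the disc, applied to the inverse images under `h` of small
   circles around the zeros `β` of `g` (replaced by regular polygons, whose number of vertices tends
   to infinity) and to the inverse image of a circle around `b` under `h(x ^ p)`. The error is small
   since the discriminant of `g` is at least one in absolute value and since the mean of
   `∑ log⁺ (c / |h - β|)` is `o(k)` for `c = exp (- k / p)`; the latter follows from a bound for the
   large values of the logarithmic derivative of `u - β X ^ e` (`Zk21.Un.LL_sum`).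
4. If `M(f) < C ^ k`, then the second main theorem shows that the mean of `log⁺ |h - b|` is bounded
   for a zero `b` of `g`, and 2. and 3. contradict each other for large `p`.  So `k` is at most a constant
   times `log M(f)`.
5. Let `V_b = log M(u - b X ^ e)`, so that `log M(f) = ∑ V_b`, and let `T_b` be the mean of `log⁺ |h - b|`.  By
   the second main theorem `T_b ≤ V_b + V_c + 2 log⁺ (1 / |b - c|) + O(1)` for two zeros of `g`
   (`Zk21.Ch.mp_Pb_near`).  If all `T_b` were larger than a large constant times `1 + log M(f) / k`, then
   `log |b - c| ≤ (5/2) (V_b + V_c) + O(1) - (1/8) min T_b` for all pairs, and the discriminant of `g` would be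
   less than one in absolute value (`Zk21.Ch.height_min`).  So `∑ T_b` is at most a constant times
   `k + log M(f)` (`Zk21.Ch.height_sum`).
-/

set_option autoImplicit false

open Polynomial

namespace Pool.Agent.Results.MP_7ab245_nt.DecomposableLehmer

/-- The sum over the zeros `b` of `g` of the mean of `log⁺ |h - b|` over the unit circle, where
`h = u / X ^ e`; note that `|x ^ e| = 1` on the circle. -/
noncomputable def heightSum (g u : ℤ[X]) (e : ℕ) : ℝ :=
  ((g.map (Int.castRingHom ℂ)).roots.map fun b => Real.circleAverage
    (fun x => Real.posLog ‖(u.map (Int.castRingHom ℂ)).eval x - b * x ^ e‖) 0 1).sum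

theorem result : ∃ C₀ : ℝ, 1 < C₀ ∧ ∀ (g u f : ℤ[X]) (e : ℕ), 2 ≤ g.natDegree → e < u.natDegree →
    f = ∑ i ∈ Finset.range (g.natDegree + 1), C (g.coeff i) * u ^ i * (X ^ e) ^ (g.natDegree - i) →
    Irreducible f → 1 < (f.map (Int.castRingHom ℂ)).mahlerMeasure →
    (∀ F : ℤ[X], f ≠ F.comp (X ^ max e (u.natDegree - e))) →
    C₀ ≤ (f.map (Int.castRingHom ℂ)).mahlerMeasure ∧
      (|f.leadingCoeff| = 1 →
        C₀ ^ ((g.natDegree : ℝ) + heightSum g u e) ≤ (f.map (Int.castRingHom ℂ)).mahlerMeasure ∧
        (f.map (Int.castRingHom ℂ)).mahlerMeasure ≤ Real.exp (heightSum g u e)) := by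
  obtain ⟨κ, hκ, h⟩ := Zk21.Ch.main_growth
  have hlog2 : 0 < Real.log 2 := Real.log_pos (by norm_num)
  have hc0 : 0 < min κ (Real.log 2) := lt_min hκ hlog2
  refine ⟨Real.exp (min κ (Real.log 2)), ?_, ?_⟩
  · rw [Real.one_lt_exp_iff]
    exact hc0
  intro g u f e hk he hf hirr hM hF
  have hinj : Function.Injective (Int.castRingHom ℂ) := (Int.castRingHom ℂ).injective_int
  have hMpos : 0 < (f.map (Int.castRingHom ℂ)).mahlerMeasure := by linarith
  have hf' : f = Zk21.Dec.hcomp g u (X ^ e) := hf
  have hT : heightSum g u e =
      ((g.map (Int.castRingHom ℂ)).roots.map fun b => Zk21.Smt.mp (Zk21.Smt.Pb u e b)).sum := by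
    unfold heightSum
    congr 1
    refine Multiset.map_congr rfl fun b _ => ?_
    unfold Zk21.Smt.mp Zk21.Smt.Pb Zk21.Dec.fb
    congr 1
    funext x
    simp
  have hT0 : 0 ≤ heightSum g u e := by
    rw [hT]
    apply Multiset.sum_nonneg
    intro y hy
    rw [Multiset.mem_map] at hy
    obtain ⟨b, -, rfl⟩ := hy
    exact Zk21.Smt.mp_nonneg _
  have hmain : |f.leadingCoeff| = 1 →
      Real.exp (min κ (Real.log 2)) ^ ((g.natDegree : ℝ) + heightSum g u e) ≤
        (f.map (Int.castRingHom ℂ)).mahlerMeasure ∧
      (f.map (Int.castRingHom ℂ)).mahlerMeasure ≤ Real.exp (heightSum g u e) := by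
    intro hl
    rcases h g u e hk he (by rw [← hf']; exact hirr) (by rw [← hf']; exact hM)
      (by rw [← hf']; exact hl) with ⟨F, h1⟩ | ⟨h1, h2⟩
    · exfalso
      rw [← hf', expand_eq_comp_X_pow] at h1
      exact hF F h1
    · rw [← hf', ← hT] at h1 h2
      constructor
      · rw [← Real.exp_mul, ← Real.le_log_iff_exp_le hMpos]
        refine le_trans ?_ h1
        exact mul_le_mul_of_nonneg_right (min_le_left _ _) (by positivity)
      · rwa [← Real.log_le_iff_le_exp hMpos]
  refine ⟨?_, hmain⟩
  by_cases hl : |f.leadingCoeff| = 1
  · refine le_trans ?_ (hmain hl).1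
    have h1 : (1:ℝ) ≤ Real.exp (min κ (Real.log 2)) := Real.one_le_exp hc0.le
    have h2 : (1:ℝ) ≤ (g.natDegree : ℝ) := by exact_mod_cast (by omega : 1 ≤ g.natDegree)
    calc Real.exp (min κ (Real.log 2)) = Real.exp (min κ (Real.log 2)) ^ (1:ℝ) := by
          rw [Real.rpow_one]
      _ ≤ _ := Real.rpow_le_rpow_of_exponent_le h1 (by linarith)
  · have h1 : 1 ≤ |f.leadingCoeff| := Int.one_le_abs (leadingCoeff_ne_zero.mpr hirr.ne_zero)
    have h2 : 2 ≤ |f.leadingCoeff| := by omega
    have h3 := leadingCoeff_le_mahlerMeasure (f.map (Int.castRingHom ℂ))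
    rw [leadingCoeff_map_of_injective hinj, eq_intCast, Complex.norm_intCast] at h3
    have h4 : (2:ℝ) ≤ |(f.leadingCoeff : ℝ)| := by exact_mod_cast h2
    have h5 : Real.exp (min κ (Real.log 2)) ≤ 2 := by
      rw [← Real.le_log_iff_exp_le (by norm_num)]
      exact min_le_right _ _
    linarith

end Pool.Agent.Results.MP_7ab245_nt.DecomposableLehmer
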