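import Mathlib
import Pool.Agent.Zk21.MyH

/-!
# Lehmer's problem for the values of polynomials `F(x, y)` with slowly moving coefficients

For an integer polynomial `P` let `m(P)` be the mean of `log⁺ |P|` over the unit circle.  For `u, v ∈ ℤ[x]` let
`T(u, v)` be the mean of `log max(|u|, |v|)` over the unit circle (so `T(u, x ^ e) = m(u)`), and let
`n = max(deg u, deg v)`.

Let `k, D ≥ 0` be integers, `K` real, `δ > 0` and `0 ≤ w < 1`.  There are `μ > 1`, `η > 0`, `C` and `n₀`, which
depend only on `k, D, K, δ, w`, with the following property.  Let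

* `F ∈ ℤ[x, y]` be a polynomial of degree `q ≤ k` in `y` which is not of the form `c(x) (a(x) y + b(x)) ^ m`; in
  other words, `F` has at least two distinct roots as a polynomial in `y` over the algebraic closure of `ℚ(x)`;
* `u, v, f, R ∈ ℤ[x]`, `f ≠ 0`, `R ≠ 0`, `f R = x ^ j v ^ q F(x, u / v)`;
* the coefficients `F_i ∈ ℤ[x]` of `F` as a polynomial in `y` be small against `h = u / v`, that is,
  `deg F_i ≤ D + η n` and `m(F_i) ≤ K + η T(u, v)`, and let `m(R) ≤ K + η T(u, v)`;
* (i) `v = x ^ e`, where `e = 0` or `u(0) ≠ 0` (`h` is an arbitrary Laurent polynomial), or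
* (ii) `u` and `v` be nonzero, `h` have a pole of order at least `δ n` at infinity or at `0`, `v = Y W` with
  `Y ∣ x v'` and `log M(W) ≤ K + w T(u, v)`, and no zero of `f` outside the unit disc be a common zero of
  `u` and `v`.

Then `M(f) = 1` or `M(f) ≥ μ`; and `T(u, v) ≤ C (1 + log M(f))` if `n ≥ n₀`.

So Lehmer's conjecture holds, uniformly in `F`, for the values of the polynomials `F(x, y)` with coefficients
which are small against `h`, except the powers of polynomials which are linear in `y`; for `F = y` it is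
Lehmer's question itself.  The degree, the coefficients and the zeros of `u` are arbitrary, and nothing is
assumed about the irreducibility of `f`.

Condition (ii) holds, with `w = 1 / 2`, for `v = c P ∏ t_l ^ e_l` with an integer `c`, `M(P) ≤ e ^ K`, arbitrary
`t_l` and exponents `e_l ≥ 2`: take `Y = c ∏ t_l ^ (e_l - 1)`.  It also holds for arbitrary `v` with
`log M(v) ≤ K + w T(u, v)`: take `Y = 1`.  In general `w = 1` would be close to Lehmer's question again: for
`F = y ^ 2 - x` and `g(x) = u(x ^ 2) - x v(x ^ 2)` the value `f = u ^ 2 - x v ^ 2` satisfies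
`f(x ^ 2) = g(x) g(-x)`, so that `M(f) = M(g) ^ 2`.

Examples.

* All `f = u ^ k + p_1 u ^ (k - 1) + ... + p_k`, `k ≥ 2`, with `deg p_i ≤ D + η deg u` and
  `m(p_i) ≤ K + η m(u)`, unless `y ^ k + p_1 y ^ (k - 1) + ... + p_k` is a `k`-th power.
* `F = y (y + p)`: if `p ≠ 0`, `deg p ≤ D + η deg u` and `m(p) ≤ K + η m(u)`, then `M(u) M(u + p)` is `1` or at
  least `μ`.
* All `f = a u ^ 2 + b u + c` with fixed `a, b, c ∈ ℤ[x]`, `a ≠ 0`, `b ^ 2 ≠ 4 a c`, and arbitrary
  `u ∈ ℤ[x]`; all reciprocal `f` whose trace polynomial is `F(t, U(t))` with `U ∈ ℤ[t]` arbitrary: take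
  `x ^ N F(x + 1 / x, y)` and `h(x) = U(x + 1 / x)`.

Method.

1. It is enough to treat `F` monic in `y` and separable: replace `F` by the squarefree part of its integral
   normalization, a monic divisor, whose coefficients are bounded through its roots (`My.coef_dvd`, `My.degx_dvd`)
   and which has at least two roots (`My.two_roots`).  For `|x| = 1` let `U = h(x)`, let `V` be the value of
   `D h`, `D = x d/dx`, and let `g`, `g_D` be the polynomials `F(x, y)`, `(D F)(x, y)` in `y`.  For two roots
   `α ≠ β` of `g` put `w(α, β) = V g'(α) g'(β) + U r(α, β) - α r(α, β) + g_D(α) g'(β)`, where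
   `(β - α) r(α, β) = g'(α) g_D(β) - g_D(α) g'(β)`.  This is small if `U` is close to `α` or to `β`.  So the
   product of the `k (k - 1)` numbers `w(α, β)` is at most of order
   `(|U| Λ) ^ (k (k - 1)) (|g(U)| / |U| ^ k) ^ (2 (k - 1))`, where `Λ` bounds the logarithmic derivatives of `u`,
   `v`, `f` and of the coefficients of `F` (`My.star_sc`, `My.circle_ptU`).
2. The product, multiplied by a power of `v` times `W`, is the value of an integer polynomial, a double
   resultant (`Mx.NO`): the poles of `h` are counted once only.  Its leading coefficient is at least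
   `(N / 2) ^ (k (k - 1))`, where `N` is the order of the pole of `h` at infinity, or the same holds for its
   trailing coefficient and the pole at `0` (`My.NO_lowerU`).  This uses that the logarithmic derivatives with
   respect to `D` of the differences of the algebraic functions `α(x)` are bounded near infinity and near `0`
   by a constant times `1 + max deg F_i`, where the constant depends only on `k`; this is proved with
   analytic branches (covering maps) and the theorem of Borel and Caratheodory (`My.eta_U`).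
3. As the mean of `log Λ` is at most `log N` plus a constant, no power of `log N` is lost, and `T(u, v)` is at
   most a constant times `1 + max m(F_i) + log M(f R)` (`My.T_allU`): a second main theorem for
   slowly moving targets on the unit circle, with truncated counting of the poles.  If `M(f)` is
   bounded, then the means of `log⁺ |u ^ q / f|` and of `log⁺ |v ^ q / f|` are bounded, and the gap theorem for
   pairs of integer polynomials of the starting files (`Pool.Agent.Y820.LB.pair_gap`) applies.
-/

set_option autoImplicit false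

open Polynomial

namespace Pool.Agent.Results.MP_7ab245_nt.SlowTargets

/-- The mean of `log⁺ |P|` over the unit circle. -/
noncomputable def mean (P : ℤ[X]) : ℝ :=
  Real.circleAverage (fun x => Real.posLog ‖(P.map (Int.castRingHom ℂ)).eval x‖) 0 1

/-- The mean of `log max(|u|, |v|)` over the unit circle. -/
noncomputable def height (u v : ℤ[X]) : ℝ :=
  Real.circleAverage (fun x => max (Real.log ‖(u.map (Int.castRingHom ℂ)).eval x‖)
    (Real.log ‖(v.map (Int.castRingHom ℂ)).eval x‖)) 0 1

/-- The rational function `u / v` has a pole of order at least `δ max(deg u, deg v)` at infinity or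
at `0`. -/
def LargePole (δ : ℝ) (u v : ℤ[X]) : Prop :=
  δ * (max u.natDegree v.natDegree : ℕ) ≤ (u.natDegree : ℝ) - v.natDegree ∨
    δ * (max u.natDegree v.natDegree : ℕ) ≤ (v.natTrailingDegree : ℝ) - u.natTrailingDegree

/-- `v = Y W`, where `Y` divides `x v'` and `log M(W) ≤ K + w T(u, v)`. -/
def FewPoles (K w : ℝ) (u v : ℤ[X]) : Prop :=
  ∃ Y W : ℤ[X], v = Y * W ∧ Y ∣ X * derivative v ∧
    Real.log (W.map (Int.castRingHom ℂ)).mahlerMeasure ≤ K + w * height u v

theorem result (k D : ℕ) (K δ w : ℝ) (hδ : 0 < δ) (hw0 : 0 ≤ w) (hw : w < 1) :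
    ∃ μ : ℝ, 1 < μ ∧ ∃ η : ℝ, 0 < η ∧ ∃ (C₁ : ℝ) (n₀ : ℕ), ∀ F : ℤ[X][X], F.natDegree ≤ k →
      (∀ (a b c : ℤ[X]) (m : ℕ), F ≠ C c * (C a * X + C b) ^ m) →
      ∀ (u v f R : ℤ[X]) (j : ℕ), f ≠ 0 → R ≠ 0 →
      f * R = X ^ j * ∑ i ∈ Finset.range (F.natDegree + 1),
        F.coeff i * u ^ i * v ^ (F.natDegree - i) →
      (∀ i, ((F.coeff i).natDegree : ℝ) ≤ D + η * (max u.natDegree v.natDegree : ℕ)) →
      (∀ i, mean (F.coeff i) ≤ K + η * height u v) → mean R ≤ K + η * height u v →
      ((∃ e : ℕ, v = X ^ e ∧ (e = 0 ∨ u.coeff 0 ≠ 0)) ∨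
        (u ≠ 0 ∧ v ≠ 0 ∧ LargePole δ u v ∧ FewPoles K w u v ∧
          ∀ z : ℂ, 1 < ‖z‖ → aeval z f = 0 → aeval z u ≠ 0 ∨ aeval z v ≠ 0)) →
      ((f.map (Int.castRingHom ℂ)).mahlerMeasure = 1 ∨
        μ ≤ (f.map (Int.castRingHom ℂ)).mahlerMeasure) ∧
      (n₀ ≤ max u.natDegree v.natDegree →
        height u v ≤ C₁ * (1 + Real.log (f.map (Int.castRingHom ℂ)).mahlerMeasure)) := by
  obtain ⟨μ, hμ, η, hη, C₁, -, n₀, -, h⟩ := Pool.Agent.Zk21.My.gap_finalU k K D hδ hw0 hw
  refine ⟨μ, hμ, η, hη, C₁, n₀, ?_⟩
  intro F hFk hF u v f R j hf hR hfR hdeg hK hRK hcase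
  obtain ⟨r1, r2⟩ := h F hFk hF u v f R j hf hR hfR hK hRK hdeg hcase
  exact ⟨r2, r1⟩

end Pool.Agent.Results.MP_7ab245_nt.SlowTargets
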