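import Mathlib
import Pool.Agent.Zk21.ChE

/-!
# Lehmer's problem for sparse perturbations: truncated counting compared with the height

Write `m(f) = log M(f)` and `θ = x d/dx`.  Let `f`, `R`, `B`, `s`, `Y`, `Z` be integer polynomials and suppose that

`g = f R`,  `F = g + B s = Y Z ≠ 0`,

where `s` has `k ≥ 1` terms and `Y` divides `θ^j F` for all `j ≤ k`.  (One may always take `Y = 1`, `Z = F`; if
`F = c P ∏ u_l ^ e_l`, then one may take `Z = P ∏ u_l ^ min(e_l, k)`.)  Let `T` be the mean of
`max(log |g|, log |F|)` over the unit circle, `K ≥ 0` and `0 < ε ≤ 1`.  Suppose that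

* `f` and `F` have no common zero outside the closed unit disc,
* the mean of `log⁺ |R|` is at most `T + K` (for instance `R = 1`), and
* `m(R) + m(Z) + k (6 + m(B)) + η ≤ (1 - ε) T + K`,

where, with `n = deg g`, `b = deg B`, `η` is the sum over the exponents `e` of `s` of
`log ((n + k b) / (n - b - e))` if `b + deg s < n` (equal leading coefficients of `g` and `F`), or of
`log ((N + k b) / e)`, `N = max (n, b + deg s)`, if `s(0) = 0` and `g(0)`, `B(0)` do not vanish (equal
constant terms).

Then `M(f) = 1` or `M(f) ≥ μ`, where `μ > 1` depends on `K` and `ε` only, and `ε T ≤ m(f) + K`; if `f` is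
irreducible and `deg F ≤ deg f`, then `M(f) = 1` or `M(f) ≥ exp (c₀ (ε / (1 + K)) ^ 3)` with an absolute
constant `c₀ > 0`.

Neither the coefficients of `s` nor the number `k` of its terms are bounded, nor is `m(Z)`: they are
compared with the height `T`, as in a second main theorem with truncated counting.

Special cases (`B = R = 1`).

* `F` a product of cyclotomic polynomials (`Y = 1`, `m(Z) = 0`): if `f` is obtained from a product of
  cyclotomic polynomials by changing `k` coefficients, all in degrees at most `(1 - δ) n` or all in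
  degrees at least `δ N`, and `k (6 + log (1 / δ)) ≤ (1 - ε) T + K`, then `M(f) = 1` or
  `M(f) ≥ μ(K, ε) > 1`.  So `k` may be as large as a constant times `T`.  For one coefficient (in any degree)
  the constant is absolute.  Such polynomials are the main source of small Mahler measures greater
  than `1`: Mossinghoff, Pinner and Vaaler found most of the known small measures by changing middle
  coefficients of products of cyclotomic polynomials.
* `F = c u ^ a` with an arbitrary integer polynomial `u` and `a > k` (`Z = u ^ k`, `m(Z) ≤ (k / a) T`), or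
  more generally `F = P u ^ a` with `m(P)` small against `T`.
* Of two irreducible polynomials with `M > 1` of the same degree that differ in one coefficient
  at most one has `M < μ`, with an absolute `μ > 1`: possible counterexamples repel each other.

The case `s = ± 1`: sums `g = F ± B` with `m(Z)`, `m(B)` small against `T` and `deg B ≤ (1 - δ) deg g`.

Method.  Differential operators which annihilate `B s` map `g` and `F` to the same polynomial `W`, whose
leading coefficient is large and which is divisible by `Y`; logarithmic derivatives of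
polynomials of degree `n` are at most of order `n` in the logarithmic mean over the unit circle.  This
bounds the mean of `log⁺ |F / g|` by the left side of the last condition (`Pool.Agent.Zk21.Pu.Kind.prox_le`).
Then the theorems on pairs of integer polynomials of bounded height from the starting files
(`Pool.Agent.Y820.LB.pair_gap`, `Pool.Agent.R328.pair_main`) apply.
-/

set_option autoImplicit false

open Polynomial

namespace Pool.Agent.Results.MP_7ab245_nt.SparsePerturbations

/-- The logarithmic Mahler measure `m(f) = log M(f)` of an integer polynomial. -/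
noncomputable def logM (f : ℤ[X]) : ℝ := Real.log (f.map (Int.castRingHom ℂ)).mahlerMeasure

/-- The mean of `log⁺ |P|` over the unit circle. -/
noncomputable def mean (P : ℤ[X]) : ℝ :=
  Real.circleAverage (fun x => Real.posLog ‖(P.map (Int.castRingHom ℂ)).eval x‖) 0 1

/-- The mean of `max(log |g|, log |F|)` over the unit circle. -/
noncomputable def height (g F : ℤ[X]) : ℝ :=
  Real.circleAverage (fun x => max (Real.log ‖(g.map (Int.castRingHom ℂ)).eval x‖)
    (Real.log ‖(F.map (Int.castRingHom ℂ)).eval x‖)) 0 1

/-- The sum of `log ((n + k b) / (n - b - e))` over the exponents `e` of `s`, where `n = deg g`,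
`b = deg B` and `k` is the number of terms of `s`. -/
noncomputable def topCost (g B s : ℤ[X]) : ℝ :=
  ∑ e ∈ s.support, Real.log (((g.natDegree : ℝ) + s.support.card * B.natDegree) /
    ((g.natDegree : ℝ) - B.natDegree - e))

/-- The sum of `log ((N + k b) / e)` over the exponents `e` of `s`, `N = max (n, b + deg s)`. -/
noncomputable def bottomCost (g B s : ℤ[X]) : ℝ :=
  ∑ e ∈ s.support, Real.log (((max g.natDegree (B.natDegree + s.natDegree) : ℕ) +
    s.support.card * B.natDegree : ℝ) / e)

theorem result : ∃ c₀ : ℝ, 0 < c₀ ∧ ∀ K ε : ℝ, 0 ≤ K → 0 < ε → ε ≤ 1 → ∃ μ : ℝ, 1 < μ ∧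
    ∀ (f R g B s F Y Z : ℤ[X]) (η : ℝ), g = f * R → s ≠ 0 → F = g + B * s → F = Y * Z → F ≠ 0 →
    (∀ j ≤ s.support.card, Y ∣ (fun P : ℤ[X] => X * derivative P)^[j] F) →
    ((B ≠ 0 ∧ B.natDegree + s.natDegree < g.natDegree ∧ η = topCost g B s) ∨
      (B.coeff 0 ≠ 0 ∧ s.coeff 0 = 0 ∧ g.coeff 0 ≠ 0 ∧ η = bottomCost g B s)) →
    (∀ z : ℂ, 1 < ‖z‖ → aeval z f = 0 → aeval z F ≠ 0) →
    mean R ≤ height g F + K →
    logM R + logM Z + s.support.card * (6 + logM B) + η ≤ (1 - ε) * height g F + K →
    ((f.map (Int.castRingHom ℂ)).mahlerMeasure = 1 ∨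
      μ ≤ (f.map (Int.castRingHom ℂ)).mahlerMeasure) ∧
    ε * height g F ≤ logM f + K ∧
    (Irreducible f → F.natDegree ≤ f.natDegree →
      (f.map (Int.castRingHom ℂ)).mahlerMeasure = 1 ∨
      Real.exp (c₀ * (ε / (1 + K)) ^ 3) ≤ (f.map (Int.castRingHom ℂ)).mahlerMeasure) := by
  obtain ⟨c₀, hc₀, h⟩ := Pool.Agent.Zk21.Ch.gap_sparse
  refine ⟨c₀, hc₀, ?_⟩
  intro K ε hK hε hε1
  obtain ⟨μ, hμ, h1⟩ := h K ε hK hε hε1
  refine ⟨μ, hμ, ?_⟩
  intro f R g B s F Y Z η hg hs hF hYZ hF0 hY hk hz hR hc
  subst hF
  subst hg
  exact h1 f R B s Y Z η hs hYZ hF0 hY hk hz hR hc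

end Pool.Agent.Results.MP_7ab245_nt.SparsePerturbations
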