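import Mathlib
import Pool.Agent.Zk21.ChH

/-!
# Lehmer's problem for divisors of values of decomposable forms: truncated counting

Write `m(f) = log M(f)` and `θ = x d/dx`.  Let `x_1, ..., x_N` be variables, `S ⊂ {1, ..., N}`, and let
`L_1, ..., L_q` be linear forms with complex coefficients such that any `N` of the `|S| + q > N` forms `x_i`
(`i ∈ S`), `L_1, ..., L_q` are linearly independent.  Let `K` and `ε > 0` be real numbers.  There are `μ > 1` and
`C` with the following property.  Let `A_1, ..., A_N` be integer polynomials of degree at most `n`, let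
`T` be the mean of `max_j log |A_j|` over the unit circle, and let `f` be an integer polynomial with

`f R = L_1(A) L_2(A) ⋯ L_q(A)`,  `A = (A_1, ..., A_N)`,

for some integer polynomial `R` for which the mean of `log⁺ |R|` is at most `K (1 + T)`.  For `i ∈ S` let
`A_i = Y_i Z_i`, where the integer polynomial `Y_i` divides `θ^k A_i` for all `k < N`.  (If `A_i = c ∏ u_m ^ e_m`,
then `Z_i` may be `∏ u_m ^ min(e_m, N - 1)`; for `N = 2` it is the radical.)  Let `B_1, ..., B_N` be a basis
of the additive group generated by `A_1, ..., A_N` that consists of polynomials of distinct degrees `d_1, ..., d_N`,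
let `b_j` be the leading coefficient of `B_j` and `y_i` that of `Y_i`; or let the `d_j` be the orders at `0`, also
distinct, and `b_j` and `y_i` the lowest coefficients.  Suppose that

`m(R) + ∑_{i ∈ S} (m(Z_i) + log |y_i|) + ∑_{i < j} log (n / |d_i - d_j|) ≤ ∑_j log |b_j| + (|S| + q - N - ε) T + K`

and that no zero of `f` outside the closed unit disc is a zero of all `A_j`.  Then `M(f) = 1` or `M(f) ≥ μ`, and
`T ≤ C (1 + log M(f))`.

If the `A_j` have distinct degrees, then `B_j = A_j` is allowed, and the terms `log |y_i|` and `log |b_j|` may be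
omitted, as `y_i` divides `b_i` for `i ∈ S`.

So the truncated counting functions of the coordinates `A_i`, `i ∈ S`, and of the cofactor `R` are compared with
the height `T`, as in Cartan's second main theorem; nothing has to be bounded.  If `T` is at least a
constant times `log n`, then the separation of the degrees `d_j` is no condition.

Examples.

* `N = 2`, `S = {1, 2}`, `q = 1`: sums `f = A_1 + A_2` (or their divisors with small cofactors) for which the
  radicals of `A_1` and `A_2` are small, `m(rad A_1) + m(rad A_2) + log (n / |d_1 - d_2|) ≤ (1 - ε) T + K`,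
  if the degrees `d_1`, `d_2` of `A_1`, `A_2` are distinct, or if `A_1` and `- A_2` are monic of the same degree
  `d_1` and `d_2 = deg f < d_1` (`B_1 = A_1`, `B_2 = f`).  So `f = P u ^ a + Q v ^ b` with
  `1/a + 1/b < 1` and `m(P) + m(Q) ≤ (1 - 1/a - 1/b - ε) T + K`, for instance `f = u ^ 3 - v ^ 2`.
* `N = 2`, `S = ∅`: divisors of `G(u, v)` for a binary form `G` of degree `q ≥ 3` and nonzero discriminant;
  the condition is `m(R) + log (n / |d_1 - d_2|) ≤ (q - 2 - ε) T + K` for
  a basis `B_1`, `B_2` of `ℤ u + ℤ v` of degrees `d_1`, `d_2`; that is, the rational function `u / v` takes its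
  value at infinity with the multiplicity `|d_1 - d_2|`.
* `S = {1, ..., N}`, `q = 1`: sums of `N` polynomials with small truncated radicals.
* `S = ∅`, norm forms: `f = Norm (A_1 + A_2 α + ... + A_N α ^ (N - 1))` from a number field `ℚ(α)` of
  degree `q > N`.

Method.  Cartan's second main theorem with truncated counting for linear forms in general position
is proved for means over the unit circle (`Pool.Agent.Zk21.Cg.smt_trunc`).  The Wronskian of `B_1, ..., B_N`
with respect to `θ` is `±` that of `A_1, ..., A_N`, which is divisible by `∏ Y_i`, and its leading coefficient is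
`∏ b_j ∏ (d_j - d_i)`; so no power of `n` is lost (`Pool.Agent.Zk21.Ch.wr_lower3`).  It follows that `ε T` is at
most `m(f)` plus a constant, and that the means of `log⁺ |A_j ^ q / f|` are bounded if `M(f)` is bounded.  The
gap theorem for pairs of integer polynomials of the starting files (`Pool.Agent.Y820.LB.pair_gap`) applies.
-/

set_option autoImplicit false

open Polynomial

namespace Pool.Agent.Results.MP_7ab245_nt.TruncatedForms

/-- The logarithmic Mahler measure `m(f) = log M(f)` of an integer polynomial. -/
noncomputable def logM (f : ℤ[X]) : ℝ := Real.log (f.map (Int.castRingHom ℂ)).mahlerMeasure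

/-- The mean of `log⁺ |P|` over the unit circle. -/
noncomputable def mean (P : ℤ[X]) : ℝ :=
  Real.circleAverage (fun x => Real.posLog ‖(P.map (Int.castRingHom ℂ)).eval x‖) 0 1

/-- The mean `T` of `max_j log |A_j|` over the unit circle. -/
noncomputable def height {N : ℕ} (A : Fin N → ℤ[X]) : ℝ :=
  Real.circleAverage (fun x => ⨆ j, Real.log ‖((A j).map (Int.castRingHom ℂ)).eval x‖) 0 1

/-- The degree of `P`, or its order at `0` if `low` is true. -/
noncomputable def deg (low : Bool) (P : ℤ[X]) : ℕ := if low then P.natTrailingDegree else P.natDegree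

/-- The leading coefficient of `P`, or its lowest coefficient if `low` is true. -/
noncomputable def lead (low : Bool) (P : ℤ[X]) : ℤ := if low then P.trailingCoeff else P.leadingCoeff

/-- The sum of `log (n / |d_j - d_i|)` over the pairs `i < j`. -/
noncomputable def sepCost {N : ℕ} (n : ℕ) (d : Fin N → ℕ) : ℝ :=
  ∑ i, ∑ j ∈ Finset.Ioi i, Real.log (n / |(d j : ℝ) - d i|)

/-- The coordinates `x_1, ..., x_N` together with the forms `L_1, ..., L_q`. -/
noncomputable def forms {N q : ℕ} (L : Fin q → Fin N → ℂ) : Fin N ⊕ Fin q → Fin N → ℂ :=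
  Sum.elim (fun j => Pi.single j 1) L

theorem result {N q : ℕ} (hN : 0 < N) (S : Finset (Fin N)) (hq : N < S.card + q)
    (L : Fin q → Fin N → ℂ)
    (hL : ∀ s : Fin N → Fin N ⊕ Fin q, Function.Injective s → (∀ i j, s i = Sum.inl j → j ∈ S) →
      (Matrix.of fun i j => forms L (s i) j).det ≠ 0)
    (K ε : ℝ) (hε : 0 < ε) : ∃ μ C₁ : ℝ, 1 < μ ∧ ∀ (n : ℕ) (A B : Fin N → ℤ[X])
    (U : Matrix (Fin N) (Fin N) ℤ) (low : Bool) (f R : ℤ[X]) (Y Z : Fin N → ℤ[X]),
    0 < n → (∀ j, (A j).natDegree ≤ n) →
    IsUnit U.det → (∀ i, B i = ∑ j, C (U i j) * A j) → (∀ i, B i ≠ 0) →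
    Function.Injective (fun i => deg low (B i)) →
    (∀ i ∈ S, A i = Y i * Z i) →
    (∀ i ∈ S, ∀ k < N, Y i ∣ (fun P : ℤ[X] => X * derivative P)^[k] (A i)) →
    (f * R).map (Int.castRingHom ℂ) = ∏ l, ∑ j, C (L l j) * (A j).map (Int.castRingHom ℂ) →
    (∀ z : ℂ, 1 < ‖z‖ → aeval z f = 0 → ∃ j, aeval z (A j) ≠ 0) →
    mean R ≤ K * (1 + height A) →
    logM R + ∑ i ∈ S, (logM (Z i) + Real.log |(lead low (Y i) : ℝ)|) +
        sepCost n (fun i => deg low (B i)) ≤
      (∑ i, Real.log |(lead low (B i) : ℝ)|) + ((S.card : ℝ) + q - N - ε) * height A + K →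
    ((f.map (Int.castRingHom ℂ)).mahlerMeasure = 1 ∨
      μ ≤ (f.map (Int.castRingHom ℂ)).mahlerMeasure) ∧
    height A ≤ C₁ * (1 + logM f) := by
  obtain ⟨μ, C₁, hμ, h⟩ := Pool.Agent.Zk21.Ch.gap_values2 hN S hq L hL K ε hε
  refine ⟨μ, C₁, hμ, ?_⟩
  intro n A B U low f R Y Z hn hAn hU
  exact h n A B U low f R Y Z hn hAn (Int.isUnit_iff.mp hU)

end Pool.Agent.Results.MP_7ab245_nt.TruncatedForms
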